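import Pool.Agent.H14.An4

namespace Pool.Agent.Results.MP_5eb035_al.Full

open Module Finset Pool.Agent.H14.An

theorem arith (n r : ℕ) (hr : r + 1 ≤ n) :
    ∑ i ∈ Icc 1 r, (n - 1 - i) + (n - r).choose 2 + r = n.choose 2 := by
  induction r with
  | zero => simp
  | succ r ih =>
    rw [sum_Icc_succ_top (by omega)]
    have h1 := ih (by omega)
    have h2 := choose_succ (n - (r + 1))
    rw [show n - (r + 1) + 1 = n - r by omega] at h2
    omega

theorem arith2 (n r : ℕ) : ∑ i ∈ range r, (n - (i + 2)) = ∑ i ∈ Icc 1 r, (n - 1 - i) := by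
  induction r with
  | zero => simp
  | succ r ih => rw [sum_Icc_succ_top (by omega), sum_range_succ, ih]; omega

theorem card_S (n r : ℕ) (hr : r ≤ n) :
    Fintype.card {s : Fin n × Fin n // (s.1 : ℕ) < r ∧ (s.1 : ℕ) + 2 ≤ s.2} =
      ∑ i ∈ Icc 1 r, (n - 1 - i) := by
  rw [Fintype.card_subtype, card_filter, Fintype.sum_prod_type, ← arith2]
  have h1 : ∀ i : ℕ, (∑ j : Fin n, if i < r ∧ i + 2 ≤ (j : ℕ) then 1 else 0) =
      if i < r then n - (i + 2) else 0 := by
    intro i
    rw [Fin.sum_univ_eq_sum_range (fun j => if i < r ∧ i + 2 ≤ j then 1 else 0) n, ← card_filter]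
    split_ifs with h
    · rw [← Nat.card_Ico]
      congr 1
      ext j
      simp only [mem_filter, mem_range, mem_Ico]
      omega
    · simp [h]
  simp only [h1]
  rw [Fin.sum_univ_eq_sum_range (fun i => if i < r then n - (i + 2) else 0) n, ← sum_filter]
  congr 1
  ext j
  simp only [mem_filter, mem_range]
  omega

theorem good {K : Type*} [Field K] (n r : ℕ) (hr : r + 1 ≤ n) (M : Matrix (Fin n) (Fin n) K)
    (h0 : ∀ i j : Fin n, ¬ ((i : ℕ) < r ∧ (i : ℕ) + 1 ≤ j) → M i j = 0)
    (h1 : ∀ i j : Fin n, (i : ℕ) < r → (j : ℕ) = i + 1 → M i j = 1) :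
    IsNilpotent M ∧ M.rank = r := by
  constructor
  · have hu : M.IsUpperTriangular := fun i j hij => h0 i j (by
      have : (j : ℕ) < i := hij
      omega)
    have hc := Matrix.charpoly_of_isUpperTriangular M hu
    have hd : ∀ i, M i i = 0 := fun i => h0 i i (by omega)
    simp only [hd, map_zero, sub_zero, prod_const] at hc
    have := Matrix.aeval_self_charpoly M
    rw [hc] at this
    exact ⟨_, by simpa using this⟩
  · apply le_antisymm
    · have := Matrix.rank_le_card_of_support_subset M
        (univ.map (Fin.castLEEmb (show r ≤ n by omega))) (by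
          intro i hi
          by_contra hc
          apply hi
          funext j
          apply h0
          rintro ⟨h, -⟩
          exact hc (mem_coe.mpr (mem_map.mpr ⟨⟨i, h⟩, mem_univ _, rfl⟩)))
      simpa using this
    · let f : Fin r → Fin n := fun i => ⟨i, by omega⟩
      let g : Fin r → Fin n := fun i => ⟨i + 1, by omega⟩
      have hu : (M.submatrix f g).IsUpperTriangular := fun i j hij => h0 (f i) (g j) (by
        have : (j : ℕ) < i := hij
        simp only [f, g]
        omega)
      have hd : (M.submatrix f g).det ≠ 0 := by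
        rw [Matrix.det_of_isUpperTriangular hu]
        refine prod_ne_zero_iff.mpr fun i _ => ?_
        rw [Matrix.submatrix_apply, h1 (f i) (g i) i.2 rfl]
        exact one_ne_zero
      have h2 := Matrix.rank_of_det_ne_zero hd
      have h3 := Matrix.rank_submatrix_le M f g
      rw [h2, Fintype.card_fin] at h3
      exact h3

/-- For `2 ≤ n`, `1 ≤ r ≤ n - 1` and every field with at least `n + 3` elements, the largest
dimension of an affine space `A + Z` of `n × n` matrices all of whose members are nilpotent of rank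
exactly `r` is `∑_{i=1}^r (n - 1 - i)`. -/
theorem result (n r : ℕ) (hn : 2 ≤ n) (_hr1 : 1 ≤ r) (hr : r ≤ n - 1) (K : Type*) [Field K]
    (hK : ((n + 3 : ℕ) : Cardinal) ≤ Cardinal.mk K) :
    IsGreatest {d : ℕ | ∃ (A : Matrix (Fin n) (Fin n) K) (Z : Submodule K (Matrix (Fin n) (Fin n) K)),
        finrank K Z = d ∧ ∀ z ∈ Z, IsNilpotent (A + z) ∧ (A + z).rank = r}
      (∑ i ∈ Icc 1 r, (n - 1 - i)) := by
  classical
  constructor
  · let S := {s : Fin n × Fin n // (s.1 : ℕ) < r ∧ (s.1 : ℕ) + 2 ≤ s.2}
    let b : S → Matrix (Fin n) (Fin n) K := fun s => Matrix.stdBasis K (Fin n) (Fin n) s.1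
    have hb : LinearIndependent K b :=
      (Matrix.stdBasis K (Fin n) (Fin n)).linearIndependent.comp _ Subtype.val_injective
    refine ⟨Matrix.of fun i j => if (i : ℕ) < r ∧ (j : ℕ) = i + 1 then 1 else 0,
      Submodule.span K (Set.range b), ?_, fun z hz => ?_⟩
    · rw [finrank_span_eq_card hb, card_S n r (by omega)]
    · have hz0 : ∀ i j : Fin n, ¬ ((i : ℕ) < r ∧ (i : ℕ) + 2 ≤ j) → z i j = 0 := by
        intro i j hij
        induction hz using Submodule.span_induction with
        | mem x hx =>
          obtain ⟨⟨⟨a, c⟩, hs⟩, rfl⟩ := hx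
          simp only [b, Matrix.stdBasis_eq_single]
          apply Matrix.single_apply_of_ne
          rintro ⟨rfl, rfl⟩
          exact hij hs
        | zero => rfl
        | add x y _ _ hx hy => rw [Matrix.add_apply, hx, hy, add_zero]
        | smul c x _ hx => rw [Matrix.smul_apply, hx, smul_zero]
      apply good n r (by omega)
      · intro i j hij
        rw [Matrix.add_apply, Matrix.of_apply, if_neg (by omega), hz0 i j (by omega), add_zero]
      · intro i j hi hj
        rw [Matrix.add_apply, Matrix.of_apply, if_pos ⟨hi, hj⟩, hz0 i j (by omega), add_zero]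
  · rintro d ⟨A, Z, rfl, h⟩
    obtain ⟨s, hs⟩ := Cardinal.exists_finset_le_card K _ hK
    have hc := pred_card_le_card_erase (s := s) (a := 0)
    let e : Matrix (Fin n) (Fin n) K ≃ₗ[K] Module.End K (Fin n → K) := Matrix.toLin'
    have hr' : ∀ z ∈ Z.map (e : Matrix (Fin n) (Fin n) K →ₗ[K] Module.End K (Fin n → K)),
        IsNilpotent (e A + z) ∧ rk (e A + z) = r := by
      rintro _ ⟨z, hz, rfl⟩
      have he : e A + (e : Matrix (Fin n) (Fin n) K →ₗ[K] Module.End K (Fin n → K)) z =
          Matrix.toLin' (A + z) := by rw [map_add]; rfl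
      rw [he]
      exact ⟨(Matrix.isNilpotent_toLin'_iff _).mpr (h z hz).1, (h z hz).2⟩
    have := main (s.erase 0) (notMem_erase _ _) n (Fin n → K) (by simp) (by omega) (e A)
      (Z.map (e : Matrix (Fin n) (Fin n) K →ₗ[K] Module.End K (Fin n → K))) r r
      (fun z hz => (hr' z hz).1) (fun z hz => (hr' z hz).2.ge) (fun z hz => (hr' z hz).2.le)
    rw [LinearEquiv.finrank_map_eq] at this
    have h2 := arith n r (by omega)
    omega

end Pool.Agent.Results.MP_5eb035_al.Full
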